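import Pool.Agent.W297.LP.Stm

/-! Project LP: the local part is assembled from TYP, COST, UNION and GAIN. -/

set_option autoImplicit false

open Finset

namespace Pool.Agent.W202.LP.Loc

open Pool.Agent.W297.LP

theorem ker_co {V : Type} {W : V → V → ℝ} (h : Ker W) : Ker (co W) where
  symm x y := by unfold co; rw [h.symm x y]
  zo x y := by
    unfold co
    rcases h.zo x y with h1 | h1 <;> rw [h1] <;> norm_num

theorem nn {V : Type} {W : V → V → ℝ} (h : Ker W) (x y : V) : 0 ≤ W x y := by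
  rcases h.zo x y with h1 | h1 <;> rw [h1]
  exact zero_le_one

theorem td_nonneg {V : Type} [Fintype V] {W : V → V → ℝ} (h : Ker W) (T : Tr) (x : V) :
    0 ≤ td W T x := by
  induction T generalizing x with
  | pt => exact zero_le_one
  | br A B ihA ihB =>
    exact mul_nonneg (ihA x) (div_nonneg (Finset.sum_nonneg fun y _ =>
      mul_nonneg (nn h x y) (ihB y)) (Nat.cast_nonneg _))

theorem lol_nonneg {V : Type} [Fintype V] {k : ℕ} {W : V → V → ℝ} (h : Ker W)
    (T : Fin k → Tr) : 0 ≤ lol W T :=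
  div_nonneg (Finset.sum_nonneg fun x _ => Finset.prod_nonneg fun i _ => td_nonneg h _ _)
    (pow_nonneg (Nat.cast_nonneg _) _)

theorem ms_nonneg {V : Type} [Fintype V] (D : Finset V) : 0 ≤ ms D :=
  div_nonneg (Nat.cast_nonneg _) (Nat.cast_nonneg _)

theorem bl_nonneg {k : ℕ} {V : Type} [Fintype V] {W : V → V → ℝ} (h : Ker W)
    (Vi : Fin (k - 1) → Finset V) : 0 ≤ bl W Vi :=
  Finset.sum_nonneg fun i _ => div_nonneg (Finset.sum_nonneg fun x _ => Finset.sum_nonneg
    fun y _ => nn (ker_co h) x y) (pow_nonneg (Nat.cast_nonneg _) _)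

theorem mu_pos {k : ℕ} (hk : 4 ≤ k) : 0 < mu k := by
  have : (4 : ℝ) ≤ k := by exact_mod_cast hk
  unfold mu
  apply one_div_pos.2
  linarith

theorem mu_le {k : ℕ} (hk : 4 ≤ k) : mu k ≤ 1 / 3 := by
  have : (4 : ℝ) ≤ k := by exact_mod_cast hk
  unfold mu
  exact one_div_le_one_div_of_le (by norm_num) (by linarith)

theorem loc (hTyp : STyp) (hCost : SCost) (hUnion : SUnion) (hGain : SGain) : SLocal := by
  intro k hk
  have hm := mu_pos hk
  have hm1 := mu_le hk
  obtain ⟨e, d0, c3, N1, he, he1, hd0, hc3, hG⟩ := hGain k hk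
  obtain ⟨d0', c, hd0', hc, hC⟩ := hCost k hk e he he1
  set d : ℝ := min d0 (min d0' (mu k ^ 2 / 16)) with hd
  have hdpos : 0 < d := lt_min hd0 (lt_min hd0' (by positivity))
  have hda : d ≤ d0 := min_le_left _ _
  have hdb : d ≤ d0' := (min_le_right _ _).trans (min_le_left _ _)
  have hdc : d ≤ mu k ^ 2 / 16 := (min_le_right _ _).trans (min_le_right _ _)
  obtain ⟨δ, hδ, hT⟩ := hTyp k hk e d he (he1.trans (by nlinarith)) hdpos
  have hcc : 0 < c * (c3 / (1 + c3)) := by positivity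
  obtain ⟨N2, hU⟩ := hUnion k hk _ hcc
  refine ⟨δ, max N1 N2, hδ, ?_⟩
  intro V _ W hW hV hN T hNT
  classical
  obtain ⟨Vi, A1, A2, ht⟩ := hT V W hW hV hN
  have hb := bl_nonneg hW Vi
  have ha1 := ms_nonneg A1
  have ha2 := ms_nonneg A2
  have hl := lol_nonneg (ker_co hW) T
  by_cases hcase : bl W Vi + ms A2 ≤ c3 * ms A1 ∧ 0 < ms A1
  · have := hG d hdpos hda V W Vi A1 A2 hW hV ht hcase.1 hcase.2 T
      ((le_max_left _ _).trans hNT)
    linarith
  · have h1 : c3 * ms A1 ≤ bl W Vi + ms A2 := by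
      rcases lt_or_ge 0 (ms A1) with h | h
      · by_contra h2
        exact hcase ⟨(not_le.1 h2).le, h⟩
      · have : ms A1 = 0 := le_antisymm h ha1
        rw [this, mul_zero]
        linarith
    have h2 : c3 / (1 + c3) * (bl W Vi + ms A1 + ms A2) ≤ bl W Vi + ms A2 := by
      rw [div_mul_eq_mul_div, div_le_iff₀ (by linarith)]
      nlinarith
    have h3 := hC d hdpos hdb V W Vi A1 A2 hW hV ht T
    refine hU e d hdc V W Vi A1 A2 hW hV ht T ((le_max_right _ _).trans hNT) (le_trans ?_ h3)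
    refine mul_le_mul_of_nonneg_right ?_ (by positivity)
    rw [mul_assoc]
    exact mul_le_mul_of_nonneg_left h2 hc.le

end Pool.Agent.W202.LP.Loc
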